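import Pool.Agent.N670.RF.Main
import Pool.Agent.N670.RX.Rep
import Pool.Agent.N670.RX.Compl

/-!
# MP_67ef3c_al: the residual finiteness growth of a finitely generated torsion-free nilpotent
group is `(log n) ^ δ`, where `δ` depends only on the complex Mal'cev completion
-/

set_option autoImplicit false

namespace Pool.Agent.Results.MP_67ef3c_al.PolylogExponent

open Pool.Agent.TH91.RF Pool.Agent.N670.RF

/-- (1) A finitely generated torsion-free nilpotent group `G` has a rational Mal'cev completion.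
(2) If `c` is a rational Mal'cev completion of the finitely generated group `G ≠ 1` then the
residual finiteness growth of `G` is `(log n) ^ δ` up to constant factors, `δ` being the least
`e` such that the ideals of codimension at most `e` of the complexified Mal'cev Lie algebra
separate its points.
(3) Hence finitely generated torsion-free nilpotent groups with isomorphic complexified Mal'cev
Lie algebras have equivalent residual finiteness growth. -/
theorem result :
    (∀ (G : Type) [Group G], Group.FG G → Group.IsNilpotent G →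
      (∀ (g : G) (n : ℕ), 1 ≤ n → g ^ n = 1 → g = 1) → Nonempty (MalcevCompletion G)) ∧
    (∀ (G : Type) [Group G] (c : MalcevCompletion G) (S : Set G), S.Finite →
      Subgroup.closure S = ⊤ → Nontrivial G → ∃ C : ℝ, 0 < C ∧ ∀ n : ℕ, 1 ≤ n →
        (1 + Real.log n) ^ sepRank ℂ c.CLie / C ≤ rfGrowth S n ∧
        (rfGrowth S n : ℝ) ≤ C * (1 + Real.log n) ^ sepRank ℂ c.CLie) ∧
    (∀ (G₁ G₂ : Type) [Group G₁] [Group G₂] (c₁ : MalcevCompletion G₁)
      (c₂ : MalcevCompletion G₂) (S₁ : Set G₁) (S₂ : Set G₂), S₁.Finite → S₂.Finite →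
      Subgroup.closure S₁ = ⊤ → Subgroup.closure S₂ = ⊤ →
      Nonempty (c₁.CLie ≃ₗ⁅ℂ⁆ c₂.CLie) → GrowthEquiv (rfGrowth S₁) (rfGrowth S₂)) := by
  refine ⟨?_, ?_, ?_⟩
  · intro G _ hfg hnil htf
    obtain ⟨N, ρ, h1, h2⟩ := Pool.Agent.N670.RX.exists_rep hfg htf
    exact ⟨Pool.Agent.N670.RX.completionOf ρ h1 h2⟩
  · intro G _ c S hS hgen hG
    exact growth c hS hgen (exists_ne 1)
  · intro G₁ G₂ _ _ c₁ c₂ S₁ S₂ hS₁ hS₂ hgen₁ hgen₂ ⟨f⟩
    exact invariant c₁ c₂ hS₁ hS₂ hgen₁ hgen₂ f

end Pool.Agent.Results.MP_67ef3c_al.PolylogExponent
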